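import Pool.Agent.L7h89.NH.Stm

/-!
# Project NH (helper89, MP_8b6d0b_co), parts POP, CCA, CCB, EXT
-/

set_option autoImplicit false

namespace Pool.Agent.L7h15.NH

open Polynomial
open scoped LinearAlgebra.Projectivization Matrix Classical
open Pool.Agent.L7h89.NH

theorem mem_bad {F : Type} [Field F] [Fintype F] {S : Finset (Pt F)} {l : Pt F} :
    l ∈ bad S ↔ 3 ≤ deg S l := by
  unfold bad
  simp

theorem mem_meet {F : Type} [Field F] {S : Finset (Pt F)} {l p : Pt F} :
    p ∈ meet S l ↔ p ∈ S ∧ On p l := by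
  unfold meet
  simp

theorem s_POP (hB : S_BAS) : S_POP := by
  intro F _ _ S hS
  obtain ⟨hsym, hline, hpt, hc1, hc2, hc3, hmk⟩ := hB F
  have hne : (Finset.univ : Finset (Pt F)).Nonempty := by
    rw [← Finset.card_pos, Finset.card_univ, hc3]
    positivity
  obtain ⟨R1, -, hR1⟩ := Finset.exists_max_image Finset.univ
    (fun R : Pt F => ((bad S).filter (fun l => On R l)).card) hne
  obtain ⟨M, hM, hM1⟩ := hS R1
  refine ⟨M, hM, fun R hR => ?_⟩
  have hRR : R ≠ R1 := by
    rintro rfl
    exact hM1 hR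
  have h1 : ((bad S).filter (fun l => On R l)).card ≤ ((bad S).filter (fun l => On R1 l)).card :=
    hR1 R (Finset.mem_univ R)
  have h2 : (((bad S).erase M).filter (fun l => On R l)).card + 1 =
      ((bad S).filter (fun l => On R l)).card := by
    rw [Finset.filter_erase, Finset.card_erase_add_one]
    exact Finset.mem_filter.2 ⟨hM, hR⟩
  have h3 : (((bad S).erase M).filter (fun l => On R l)).card +
      (((bad S).erase M).filter (fun l => ¬ On R l)).card = ((bad S).erase M).card :=
    Finset.card_filter_add_card_filter_not _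
  obtain ⟨m0, hm0, hm1, hm2⟩ := hline R R1 hRR
  have h4 : ((bad S).filter (fun l => On R1 l)).erase m0 ⊆
      ((bad S).erase M).filter (fun l => ¬ On R l) := by
    intro l hl
    rw [Finset.mem_erase, Finset.mem_filter] at hl
    rw [Finset.mem_filter, Finset.mem_erase]
    refine ⟨⟨?_, hl.2.1⟩, fun h => hl.1 (hm2 l h hl.2.2)⟩
    rintro rfl
    exact hM1 hl.2.2
  have h5 := Finset.card_le_card h4
  have h6 : ((bad S).filter (fun l => On R1 l)).card - 1 ≤
      (((bad S).filter (fun l => On R1 l)).erase m0).card := Finset.pred_card_le_card_erase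
  omega

theorem psi_add {F : Type} [Field F] (P Q : Multiset (Pt F)) (l : Pt F) :
    psi (P + Q) l = psi P l + psi Q l := by
  unfold psi
  rw [Multiset.filter_add, Multiset.card_add]

theorem psi_sum {F : Type} [Field F] {ι : Type} (s : Finset ι) (P : ι → Multiset (Pt F))
    (l : Pt F) : psi (∑ x ∈ s, P x) l = ∑ x ∈ s, psi (P x) l := by
  induction s using Finset.induction_on with
  | empty => simp [psi]
  | insert a s ha ih => rw [Finset.sum_insert ha, Finset.sum_insert ha, psi_add, ih]

theorem psi_all {F : Type} [Field F] (P : Multiset (Pt F)) (l : Pt F) (h : ∀ p ∈ P, On p l) :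
    psi P l = P.card := by
  unfold psi
  rw [Multiset.filter_eq_self.2 h]

theorem psi_none {F : Type} [Field F] (P : Multiset (Pt F)) (l : Pt F) (h : ∀ p ∈ P, ¬ On p l) :
    psi P l = 0 := by
  unfold psi
  rw [Multiset.filter_eq_nil.2 h, Multiset.card_zero]

theorem core (hB : S_BAS) (hK : S_KIL) {F : Type} [Field F] [Fintype F] (S : Finset (Pt F))
    (hS : S.card = Fintype.card F + 1) (hw : 2 * wt S + 5 ≤ Fintype.card F) (R M x0 : Pt F)
    (hM : M ∈ bad S) (hR : ∀ l ∈ bad S, On R l) (hx0 : x0 ∈ meet S M) (hx0R : x0 ≠ R)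
    (T : Pt F → Finset (Pt F))
    (hT1 : ∀ l ∈ bad S, l ≠ M → T l ⊆ (meet S l).erase R)
    (hT2 : ∀ l ∈ bad S, l ≠ M → (T l).card ≤ 2 * (deg S l - 1).choose 2)
    (hT3 : ∀ l ∈ bad S, l ≠ M → (∀ x ∈ meet S l, x = R ∨ x ∈ T l) ∨
      3 * (deg S l - 2) < (2 * deg S M - 5) + (T l).card) : False := by
  obtain ⟨hsym, hline, hpt, hc1, hc2, hc3, hmk⟩ := hB F
  have hM3 : 3 ≤ deg S M := mem_bad.1 hM
  set P : Multiset (Pt F) := ((meet S M).erase x0).val + Multiset.replicate (2 * deg S M - 5) R +
    ∑ l ∈ (bad S).erase M, (T l).val with hP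
  -- the points of `T l` are not on `M`
  have hoff : ∀ l ∈ (bad S).erase M, ∀ p ∈ (T l).val, ¬ On p M := by
    intro l hl p hp hpM
    rw [Finset.mem_erase] at hl
    have h1 := hT1 l hl.2 hl.1 hp
    rw [Finset.mem_erase, mem_meet] at h1
    obtain ⟨r, hr1, hr2, hr3⟩ := hpt l M hl.1
    have e1 := hr3 p h1.2.2 hpM
    have e2 := hr3 R (hR l hl.2) (hR M hM)
    exact h1.1 (e1.trans e2.symm)
  have hmemP : ∀ x, x ∈ P ↔ (x ≠ x0 ∧ x ∈ meet S M) ∨ x = R ∨
      ∃ l ∈ (bad S).erase M, x ∈ T l := by
    intro x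
    rw [hP, Multiset.mem_add, Multiset.mem_add, Multiset.mem_replicate, Multiset.mem_sum]
    simp only [Finset.mem_val, Finset.mem_erase]
    constructor
    · rintro ((h | h) | h)
      · exact Or.inl h
      · exact Or.inr (Or.inl h.2)
      · exact Or.inr (Or.inr h)
    · rintro (h | h | h)
      · exact Or.inl (Or.inl h)
      · exact Or.inl (Or.inr ⟨by omega, h⟩)
      · exact Or.inr h
  have hcM : ((meet S M).erase x0).card + 1 = deg S M := Finset.card_erase_add_one hx0
  have hcard : P.card + 4 ≤ Fintype.card F := by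
    have e1 : P.card = ((meet S M).erase x0).card + (2 * deg S M - 5) +
        ∑ l ∈ (bad S).erase M, (T l).card := by
      rw [hP, Multiset.card_add, Multiset.card_add, Multiset.card_replicate, Multiset.card_sum]
      rfl
    have e2 : ∑ l ∈ (bad S).erase M, (T l).card ≤
        2 * ∑ l ∈ (bad S).erase M, (deg S l - 1).choose 2 := by
      rw [Finset.mul_sum]
      refine Finset.sum_le_sum fun l hl => ?_
      rw [Finset.mem_erase] at hl
      exact hT2 l hl.2 hl.1
    have e3 : (deg S M - 1).choose 2 + ∑ l ∈ (bad S).erase M, (deg S l - 1).choose 2 ≤ wt S := by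
      rw [Finset.add_sum_erase (bad S) (fun l => (deg S l - 1).choose 2) hM]
      unfold wt
      exact Finset.sum_le_sum_of_subset (Finset.subset_univ _)
    have e4 : 3 * deg S M - 6 ≤ 2 * (deg S M - 1).choose 2 + 1 := by
      obtain ⟨k, hk⟩ := Nat.exists_eq_add_of_le hM3
      have e5 : deg S M - 1 = k + 2 := by omega
      have e6 : 2 * (k + 2).choose 2 = (k + 2) * (k + 1) := by
        rw [Nat.choose_two_right]
        have : 2 ∣ (k + 2) * (k + 2 - 1) := (Nat.even_mul_pred_self (k + 2)).two_dvd
        rw [Nat.mul_div_cancel' this]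
        rfl
      rw [e5, e6, hk]
      have : 3 * (3 + k) - 6 = 3 * k + 3 := by omega
      rw [this]
      nlinarith
    omega
  have hpsiM : psi P M = 3 * (deg S M - 2) := by
    have e1 : psi ((meet S M).erase x0).val M = ((meet S M).erase x0).card := by
      refine psi_all _ _ fun p hp => ?_
      have : p ∈ (meet S M).erase x0 := hp
      rw [Finset.mem_erase, mem_meet] at this
      exact this.2.2
    have e2 : psi (Multiset.replicate (2 * deg S M - 5) R) M = 2 * deg S M - 5 := by
      rw [psi_all, Multiset.card_replicate]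
      intro p hp
      rw [Multiset.eq_of_mem_replicate hp]
      exact hR M hM
    have e3 : psi (∑ l ∈ (bad S).erase M, (T l).val) M = 0 := by
      rw [psi_sum]
      refine Finset.sum_eq_zero fun l hl => ?_
      exact psi_none _ _ (hoff l hl)
    rw [hP, psi_add, psi_add, e1, e2, e3]
    omega
  refine hK F S P M x0 hS hcard hM3 hpsiM ?_ hx0 ?_ ?_
  · intro l hl hl3
    have hlb : l ∈ bad S := mem_bad.2 hl3
    rcases hT3 l hlb hl with h | h
    · left
      intro x hx
      rw [hmemP]
      rcases h x hx with h1 | h1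
      · exact Or.inr (Or.inl h1)
      · exact Or.inr (Or.inr ⟨l, Finset.mem_erase.2 ⟨hl, hlb⟩, h1⟩)
    · right
      have e2 : psi (Multiset.replicate (2 * deg S M - 5) R) l = 2 * deg S M - 5 := by
        rw [psi_all, Multiset.card_replicate]
        intro p hp
        rw [Multiset.eq_of_mem_replicate hp]
        exact hR l hlb
      have e3 : (T l).card ≤ psi (∑ l ∈ (bad S).erase M, (T l).val) l := by
        rw [psi_sum]
        calc (T l).card = psi (T l).val l := by
              rw [psi_all]
              · rfl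
              · intro p hp
                have := hT1 l hlb hl hp
                rw [Finset.mem_erase, mem_meet] at this
                exact this.2.2
          _ ≤ ∑ x ∈ (bad S).erase M, psi (T x).val l :=
              Finset.single_le_sum (f := fun x => psi (T x).val l) (fun _ _ => Nat.zero_le _)
                (Finset.mem_erase.2 ⟨hl, hlb⟩)
      rw [hP, psi_add, psi_add, e2]
      omega
  · rw [hmemP]
    rintro (h | h | ⟨l, hl, h⟩)
    · exact h.1 rfl
    · exact hx0R h
    · exact hoff l hl x0 h (mem_meet.1 hx0).2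
  · intro y hy hyx
    rw [hmemP]
    exact Or.inl ⟨hyx, hy⟩

theorem two_choose (j : ℕ) (_hj : 3 ≤ j) : 2 * (j - 1).choose 2 = (j - 1) * (j - 2) := by
  rw [Nat.choose_two_right]
  have : 2 ∣ (j - 1) * (j - 1 - 1) := (Nat.even_mul_pred_self (j - 1)).two_dvd
  rw [Nat.mul_div_cancel' this]
  rfl

theorem s_CCA (hB : S_BAS) (hK : S_KIL) : S_CCA := by
  intro F _ _ S R hS hRS hne hR hw
  obtain ⟨M, hM⟩ := hne
  have hM3 : 3 ≤ deg S M := mem_bad.1 hM
  have hRM : R ∈ meet S M := mem_meet.2 ⟨hRS, hR M hM⟩
  obtain ⟨x0, hx0⟩ : ((meet S M).erase R).Nonempty := by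
    rw [← Finset.card_pos, Finset.card_erase_of_mem hRM]
    unfold deg at hM3
    omega
  rw [Finset.mem_erase] at hx0
  refine core hB hK S hS hw R M x0 hM hR hx0.2 hx0.1 (fun l => (meet S l).erase R)
    (fun l _ _ => subset_rfl) (fun l hl _ => ?_) (fun l hl _ => Or.inl fun x hx => ?_)
  · have hl3 : 3 ≤ deg S l := mem_bad.1 hl
    rw [Finset.card_erase_of_mem (mem_meet.2 ⟨hRS, hR l hl⟩), two_choose _ hl3]
    show deg S l - 1 ≤ _
    calc deg S l - 1 = (deg S l - 1) * 1 := (mul_one _).symm
      _ ≤ (deg S l - 1) * (deg S l - 2) := Nat.mul_le_mul_left _ (by omega)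
  · by_cases h : x = R
    · exact Or.inl h
    · exact Or.inr (Finset.mem_erase.2 ⟨h, hx⟩)

theorem s_CCB (hB : S_BAS) (hK : S_KIL) : S_CCB := by
  intro F _ _ S R M hS hRS hR hM hM4 hw
  have hmR : ∀ l, R ∉ meet S l := fun l h => hRS (mem_meet.1 h).1
  obtain ⟨x0, hx0⟩ : (meet S M).Nonempty := by
    rw [← Finset.card_pos]
    unfold deg at hM4
    omega
  have hx0R : x0 ≠ R := by
    rintro rfl
    exact hmR M hx0
  have hex : ∀ l : Pt F, ∃ T : Finset (Pt F), T ⊆ meet S l ∧
      ((deg S l = 3 → T.card = 2) ∧ (deg S l ≠ 3 → T = meet S l)) := by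
    intro l
    by_cases h : deg S l = 3
    · obtain ⟨T, hT, hT2⟩ := Finset.exists_subset_card_eq (s := meet S l) (n := 2) (by
        unfold deg at h; omega)
      exact ⟨T, hT, fun _ => hT2, fun h' => absurd h h'⟩
    · exact ⟨meet S l, subset_rfl, fun h' => absurd h' h, fun _ => rfl⟩
  choose T hT1 hT2 using hex
  refine core hB hK S hS hw R M x0 hM hR hx0 hx0R T (fun l _ _ => ?_) (fun l hl _ => ?_)
    (fun l hl _ => ?_)
  · rw [Finset.erase_eq_of_notMem (hmR l)]
    exact hT1 l
  · have hl3 : 3 ≤ deg S l := mem_bad.1 hl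
    rw [two_choose _ hl3]
    by_cases h : deg S l = 3
    · rw [(hT2 l).1 h, h]
    · rw [(hT2 l).2 h]
      show deg S l ≤ _
      obtain ⟨k, hk⟩ := Nat.exists_eq_add_of_le (show 4 ≤ deg S l by omega)
      have e1 : deg S l - 1 = k + 3 := by omega
      have e2 : deg S l - 2 = k + 2 := by omega
      rw [e1, e2, hk]
      nlinarith
  · by_cases h : deg S l = 3
    · right
      rw [(hT2 l).1 h, h]
      omega
    · left
      intro x hx
      right
      rw [(hT2 l).2 h]
      exact hx

theorem s_EXT (hB : S_BAS) : S_EXT := by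
  intro F _ _ hq
  obtain ⟨hsym, hline, hpt, hc1, hc2, hc3, hmk⟩ := hB F
  have hne : (Finset.univ : Finset (Pt F)).Nonempty := by
    rw [← Finset.card_pos, Finset.card_univ, hc3]
    positivity
  obtain ⟨l0, -⟩ := hne
  have h4 := hc2 l0
  rw [hq] at h4
  obtain ⟨T, hT, hT3⟩ := Finset.exists_subset_card_eq
    (s := Finset.univ.filter (fun p : Pt F => On p l0)) (n := 3) (by omega)
  obtain ⟨e, he⟩ : ∃ e : Pt F, ¬ On e l0 := by
    by_contra h
    push Not at h
    have h5 : (Finset.univ.filter (fun p : Pt F => On p l0)) = Finset.univ :=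
      Finset.filter_true_of_mem fun p _ => h p
    rw [h5, Finset.card_univ, hc3, hq] at h4
    omega
  have hTon : ∀ p ∈ T, On p l0 := fun p hp => (Finset.mem_filter.1 (hT hp)).2
  have heT : e ∉ T := fun h => he (hTon e h)
  refine ⟨insert e T, by rw [Finset.card_insert_of_notMem heT, hT3], ?_⟩
  have hm0 : meet (insert e T) l0 = T := by
    ext p
    rw [mem_meet, Finset.mem_insert]
    constructor
    · rintro ⟨rfl | h, h'⟩
      · exact absurd h' he
      · exact h
    · exact fun h => ⟨Or.inr h, hTon p h⟩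
  have hd0 : deg (insert e T) l0 = 3 := by
    unfold deg
    rw [hm0, hT3]
  have hd1 : ∀ l, l ≠ l0 → deg (insert e T) l ≤ 2 := by
    intro l hl
    have h1 : (T.filter (fun p => On p l)).card ≤ 1 := by
      rw [Finset.card_le_one]
      intro x hx y hy
      rw [Finset.mem_filter] at hx hy
      obtain ⟨r, hr1, hr2, hr3⟩ := hpt l l0 hl
      exact (hr3 x hx.2 (hTon x hx.1)).trans (hr3 y hy.2 (hTon y hy.1)).symm
    have h2 : meet (insert e T) l ⊆ insert e (T.filter (fun p => On p l)) := by
      intro p hp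
      rw [mem_meet, Finset.mem_insert] at hp
      rw [Finset.mem_insert, Finset.mem_filter]
      rcases hp with ⟨h | h, h'⟩
      · exact Or.inl h
      · exact Or.inr ⟨h, h'⟩
    have h3 := Finset.card_le_card h2
    have h5 := Finset.card_insert_le e (T.filter (fun p => On p l))
    unfold deg
    omega
  unfold wt
  rw [Finset.sum_eq_single l0]
  · rw [hd0]
    rfl
  · intro l _ hl
    have := hd1 l hl
    exact Nat.choose_eq_zero_of_lt (by omega)
  · intro h
    exact absurd (Finset.mem_univ _) h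

end Pool.Agent.L7h15.NH
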